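import Pool.Agent.Lib_helper60.PQ.Defs

/-!
# Project GL (MP_05dcdc_nt): Tunnell's number modulo `2^(ω+3)` at all squarefree `n ≡ 3 mod 8` with exactly one
prime factor `≡ 3 mod 4`. Definitions.
-/

set_option autoImplicit false

namespace Pool.Agent.GL

open Finset Pool.Agent.PQ

/-- `n = m q` squarefree, `n ≡ 3 mod 8`, `q ≡ 3 mod 4` prime, all prime factors of `m` are `≡ 1 mod 4` -/
def Fam (m q : ℕ) : Prop :=
  Squarefree (m * q) ∧ q.Prime ∧ q % 4 = 3 ∧ (m * q) % 8 = 3 ∧ ∀ p : ℕ, p.Prime → p ∣ m → p % 4 = 1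

/-- `n ≡ 1 mod 8` squarefree, `n > 1`, all prime factors of `n` are `≡ 1 mod 4` -/
def One (n : ℕ) : Prop :=
  Squarefree n ∧ 1 < n ∧ n % 8 = 1 ∧ ∀ p : ℕ, p.Prime → p ∣ n → p % 4 = 1

/-- the number of prime factors -/
def w (n : ℕ) : ℕ := n.primeFactors.card

open Classical in
/-- the Rédei kernel of `n = m q`: the divisors `d` of `m` such that, for all primes `p ∣ m`, `d` is a square mod `p`
if `p ∤ d`, and `n / d` is a square mod `p` if `p ∣ d` -/
noncomputable def K (m q : ℕ) : Finset ℕ :=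
  m.divisors.filter (fun d => ∀ p : ℕ, p.Prime → p ∣ m →
    (¬ p ∣ d → jacobiSym (d : ℤ) p = 1) ∧ (p ∣ d → jacobiSym ((m / d * q : ℕ) : ℤ) p = 1))

open Classical in
/-- the number of the primes `p ∣ d` modulo which `n / d` is not a fourth power, `n = m q` -/
noncomputable def nq (m q d : ℕ) : ℕ := (d.primeFactors.filter (fun p => ¬ Pow4 (m / d * q) p)).card

open Classical in
/-- the divisors `d > 1`, `d ≡ 1 mod 8` of `m` with `2^(ω(d)+3) ∤ c(d)` and trivial Rédei kernel of `n / d` -/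
noncomputable def Nn (m q : ℕ) : Finset ℕ :=
  m.divisors.filter (fun d => d % 8 = 1 ∧ 1 < d ∧ ¬ (2 : ℤ) ^ (w d + 3) ∣ c d ∧ K (m / d) q = {1})

/-- `ε = 1` -/
def Eps (m q : ℕ) : Prop := ∃ d : ℕ, d ≠ 1 ∧ K m q = {1, d} ∧ ¬ (Even (nq m q d) ↔ d % 8 = 1)

end Pool.Agent.GL
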