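import Pool.Agent.Lib_helper61.GL.HN
import Pool.Agent.Lib_helper28.GL.B1
import Pool.Agent.Lib_helper7.GNF.P.GF
import Pool.Agent.Lib_helper7.GNF.P.DV

/-! # Project GL, block CL: the law -/

set_option autoImplicit false

namespace Pool.Agent.GL

open Finset Pool.Agent.PQ

theorem cl_tc (n : ℕ) : PQ.c n = GNF.tc n := rfl

theorem cl_parity {ι : Type} (D : Finset ι) (f : ι → ℤ) [DecidablePred (fun i => Odd (f i))] :
    Odd (∑ i ∈ D, f i) ↔ Odd (D.filter (fun i => Odd (f i))).card := by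
  classical
  induction D using Finset.induction_on with
  | empty => simp
  | insert a s ha ih =>
    rw [Finset.sum_insert ha, Finset.filter_insert]
    by_cases h : Odd (f a)
    · rw [if_pos h, Finset.card_insert_of_notMem (by simp [ha]), Int.odd_add]
      constructor
      · intro h1
        have h2 := h1.1 h
        rw [← Int.not_odd_iff_even, ih, Nat.not_odd_iff_even] at h2
        exact h2.add_one
      · intro h1
        refine ⟨fun _ => ?_, fun _ => h⟩
        rw [← Int.not_odd_iff_even, ih]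
        intro h3
        rw [← Nat.not_even_iff_odd] at h1
        exact h1 h3.add_one
    · rw [if_neg h, Int.odd_add, ← ih]
      constructor
      · intro h1
        by_contra h2
        exact h (h1.2 (Int.not_odd_iff_even.1 h2))
      · intro h1
        exact ⟨fun h2 => absurd h2 h, fun h2 => absurd h1 (Int.not_odd_iff_even.2 h2)⟩

/-- divisors -/
def clD (m : ℕ) : Finset ℕ := m.divisors.filter (fun d => d % 8 = 1 ∧ 1 < d)

theorem cl_fam_pos {m q : ℕ} (hf : Fam m q) : 0 < m ∧ 0 < q := by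
  have h := hf.1.ne_zero
  constructor
  · rcases Nat.eq_zero_or_pos m with rfl | h1
    · simp at h
    · exact h1
  · exact hf.2.1.pos

theorem cl_mod4 {m : ℕ} (h : ∀ p : ℕ, p.Prime → p ∣ m → p % 4 = 1) (hm : 0 < m) : m % 4 = 1 := by
  induction m using Nat.strong_induction_on with
  | _ m ih =>
    rcases Nat.lt_or_ge 1 m with h1 | h1
    · obtain ⟨p, hp, k, rfl⟩ := Nat.exists_prime_and_dvd h1.ne'
      have hk : 0 < k := Nat.pos_of_ne_zero (by rintro rfl; simp at hm)
      have h2 := ih k (by nlinarith [hp.two_le]) (fun r hr hrk => h r hr (hrk.mul_left _)) hk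
      have h3 := h p hp (dvd_mul_right p k)
      rw [Nat.mul_mod, h2, h3]
    · have : m = 1 := by omega
      rw [this]

theorem cl_cop {m q : ℕ} (hf : Fam m q) : Nat.Coprime m q := Nat.coprime_of_squarefree_mul hf.1

theorem cl_w {a b : ℕ} (h : Nat.Coprime a b) : w (a * b) = w a + w b := by
  unfold w
  rw [h.primeFactors_mul, Finset.card_union_of_disjoint h.disjoint_primeFactors]

theorem cl_wq {m q : ℕ} (hf : Fam m q) : w (m * q) = w m + 1 := by
  rw [cl_w (cl_cop hf)]
  congr 1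
  rw [w, hf.2.1.primeFactors]
  rfl

/-- the divisors of `m q` -/
theorem cl_div {m q : ℕ} (hf : Fam m q) :
    (m * q).divisors.filter (fun d => d % 8 = 1) = insert 1 (clD m) := by
  obtain ⟨hm0, hq0⟩ := cl_fam_pos hf
  ext d
  simp only [clD, mem_filter, mem_insert, Nat.mem_divisors]
  constructor
  · rintro ⟨⟨h1, h2⟩, h8⟩
    rcases Nat.lt_or_ge 1 d with h | h
    · right
      have hqd : ¬ q ∣ d := by
        rintro ⟨e, rfl⟩
        have he : e ∣ m := by
          have : q * e ∣ q * m := by rwa [mul_comm q m]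
          exact Nat.dvd_of_mul_dvd_mul_left hq0 this
        have he0 : 0 < e := Nat.pos_of_dvd_of_pos he hm0
        have h3 := cl_mod4 (fun p hp hpe => hf.2.2.2.2 p hp (hpe.trans he)) he0
        have h4 : (q * e) % 4 = 3 := by rw [Nat.mul_mod, hf.2.2.1, h3]
        omega
      have hdm : d ∣ m :=
        Nat.Coprime.dvd_of_dvd_mul_right ((Nat.Prime.coprime_iff_not_dvd hf.2.1).2 hqd).symm h1
      exact ⟨⟨hdm, hm0.ne'⟩, h8, h⟩
    · left
      have : 0 < d := Nat.pos_of_dvd_of_pos h1 (Nat.mul_pos hm0 hq0)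
      omega
  · rintro (rfl | ⟨⟨h1, h2⟩, h8, h3⟩)
    · exact ⟨⟨one_dvd _, (Nat.mul_pos hm0 hq0).ne'⟩, by norm_num⟩
    · exact ⟨⟨h1.mul_right q, (Nat.mul_pos hm0 hq0).ne'⟩, h8⟩

theorem cl_c_one : PQ.c 1 = 2 := GNF.dv_tc1

theorem cl_gf (m q : ℕ) [NeZero (m * q)] (hf : Fam m q) :
    2 * c (m * q) + ∑ d ∈ clD m, c d * c (m / d * q) ≡ 8 * (h (m * q) : ℤ)
      [ZMOD 2 ^ (w (m * q) + 4)] := by
  obtain ⟨hm0, hq0⟩ := cl_fam_pos hf
  have h1 : 1 < m * q := by nlinarith [hf.2.1.two_le]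
  have hGF := GNF.GF (m * q) h1 hf.1 (Or.inr hf.2.2.2.1) (fun _ => 1) (fun _ => Or.inl rfl)
    (fun h => by have := hf.2.2.2.1; omega)
  unfold GNF.Ss at hGF
  rw [cl_div hf, Finset.sum_insert (by simp [clD])] at hGF
  have e0 : (-1) ^ (GNF.nu 1 / 2) * (∏ p ∈ Nat.primeFactors 1, (fun _ : ℕ => (1 : ℤ)) p) * GNF.tc 1 *
      GNF.tc (m * q / 1) = 2 * c (m * q) := by
    rw [Nat.div_one, ← cl_tc, ← cl_tc, cl_c_one]
    simp [GNF.nu]
  have e1 : ∑ d ∈ clD m, (-1) ^ (GNF.nu d / 2) * (∏ p ∈ d.primeFactors, (fun _ : ℕ => (1 : ℤ)) p) *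
      GNF.tc d * GNF.tc (m * q / d) = ∑ d ∈ clD m, c d * c (m / d * q) := by
    refine Finset.sum_congr rfl fun d hd => ?_
    simp only [clD, mem_filter, Nat.mem_divisors] at hd
    have hnu : GNF.nu d = 0 := by
      unfold GNF.nu
      rw [Finset.card_eq_zero, Finset.filter_eq_empty_iff]
      intro p hp h3
      have h4 := hf.2.2.2.2 p (Nat.prime_of_mem_primeFactors hp)
        ((Nat.dvd_of_mem_primeFactors hp).trans hd.1.1)
      omega
    have hdiv : m * q / d = m / d * q := by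
      obtain ⟨e, rfl⟩ := hd.1.1
      have hd0 : 0 < d := by omega
      rw [Nat.mul_div_cancel_left e hd0, mul_assoc, Nat.mul_div_cancel_left _ hd0]
    rw [hnu, hdiv, ← cl_tc, ← cl_tc]
    simp
  rw [e0, e1] at hGF
  exact hGF

theorem cl_sub {m q d : ℕ} (hf : Fam m q) (hd : d ∈ clD m) : Fam (m / d) q ∧ One d ∧ m / d < m ∧
    w d + w (m / d) = w m := by
  obtain ⟨hm0, hq0⟩ := cl_fam_pos hf
  simp only [clD, mem_filter, Nat.mem_divisors] at hd
  obtain ⟨⟨⟨e, rfl⟩, -⟩, h8, h1⟩ := hd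
  have hd0 : 0 < d := by omega
  have he0 : 0 < e := Nat.pos_of_ne_zero (by rintro rfl; simp at hm0)
  rw [Nat.mul_div_cancel_left e hd0]
  have hsde : Squarefree (d * e) := hf.1.squarefree_of_dvd (dvd_mul_right _ q)
  refine ⟨⟨?_, hf.2.1, hf.2.2.1, ?_, ?_⟩, ⟨?_, h1, h8, ?_⟩, ?_, ?_⟩
  · exact hf.1.squarefree_of_dvd ⟨d, by ring⟩
  · have h := hf.2.2.2.1
    rw [mul_assoc, Nat.mul_mod, h8] at h
    omega
  · exact fun p hp hpe => hf.2.2.2.2 p hp (hpe.mul_left d)
  · exact hsde.squarefree_of_dvd (dvd_mul_right d e)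
  · exact fun p hp hpd => hf.2.2.2.2 p hp (hpd.mul_right e)
  · nlinarith
  · exact (cl_w (Nat.coprime_of_squarefree_mul hsde)).symm

theorem cl (m q : ℕ) (hf : Fam m q) :
    (2 : ℤ) ^ (w (m * q) + 1) ∣ c (m * q) ∧
    ((2 : ℤ) ^ (w (m * q) + 2) ∣ c (m * q) ↔ K m q ≠ {1}) ∧
    (K m q ≠ {1} → ((2 : ℤ) ^ (w (m * q) + 3) ∣ c (m * q) ↔ (Odd (Nn m q).card ↔ Eps m q))) := by
  classical
  induction m using Nat.strong_induction_on with
  | _ m ih =>
    obtain ⟨hm0, hq0⟩ := cl_fam_pos hf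
    have : NeZero (m * q) := ⟨(Nat.mul_pos hm0 hq0).ne'⟩
    obtain ⟨⟨H, hH⟩, hh2, hh3⟩ := hn m q hf
    have hG := cl_gf m q hf
    have hwq := cl_wq hf
    set W := w (m * q) with hW
    -- the terms
    have hu : ∀ d : ℕ, ∃ u : ℤ, d ∈ clD m → c d = 2 ^ (w d + 2) * u := by
      intro d
      by_cases hd : d ∈ clD m
      · obtain ⟨u, hu⟩ := c_one d (cl_sub hf hd).2.1
        exact ⟨u, fun _ => hu⟩
      · exact ⟨0, fun h => absurd h hd⟩
    have hv : ∀ d : ℕ, ∃ v : ℤ, d ∈ clD m → c (m / d * q) = 2 ^ (w (m / d) + 2) * v := by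
      intro d
      by_cases hd : d ∈ clD m
      · obtain ⟨hf', -, hlt, -⟩ := cl_sub hf hd
        obtain ⟨v, hv⟩ := (ih (m / d) hlt hf').1
        rw [cl_wq hf'] at hv
        exact ⟨v, fun _ => hv⟩
      · exact ⟨0, fun h => absurd h hd⟩
    choose u hu using hu
    choose v hv using hv
    have hS : ∑ d ∈ clD m, c d * c (m / d * q) = 2 ^ (W + 3) * ∑ d ∈ clD m, u d * v d := by
      rw [Finset.mul_sum]
      refine Finset.sum_congr rfl fun d hd => ?_
      have h4 := (cl_sub hf hd).2.2.2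
      rw [hu d hd, hv d hd, hwq, ← h4]
      ring
    set S : ℤ := ∑ d ∈ clD m, u d * v d with hSdef
    -- parity
    have hpar : Odd S ↔ Odd (Nn m q).card := by
      rw [hSdef, cl_parity]
      have : (clD m).filter (fun d => Odd (u d * v d)) = Nn m q := by
        ext d
        simp only [Nn, mem_filter, clD]
        constructor
        · rintro ⟨⟨h1, h2, h3⟩, h4⟩
          have hd : d ∈ clD m := by simp only [clD, mem_filter]; exact ⟨h1, h2, h3⟩
          obtain ⟨hf', -, hlt, -⟩ := cl_sub hf hd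
          rw [Int.odd_mul] at h4
          refine ⟨h1, h2, h3, ?_, ?_⟩
          · rw [hu d hd]
            intro h5
            rw [pow_succ, Int.mul_dvd_mul_iff_left (by positivity)] at h5
            exact (Int.not_even_iff_odd.2 h4.1) (even_iff_two_dvd.2 h5)
          · by_contra h5
            have h6 := ((ih (m / d) hlt hf').2.1).2 h5
            rw [cl_wq hf', hv d hd, show w (m / d) + 1 + 2 = (w (m / d) + 2) + 1 by ring, pow_succ,
              Int.mul_dvd_mul_iff_left (by positivity)] at h6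
            exact (Int.not_even_iff_odd.2 h4.2) (even_iff_two_dvd.2 h6)
        · rintro ⟨h1, h2, h3, h4, h5⟩
          have hd : d ∈ clD m := by simp only [clD, mem_filter]; exact ⟨h1, h2, h3⟩
          obtain ⟨hf', -, hlt, -⟩ := cl_sub hf hd
          refine ⟨⟨h1, h2, h3⟩, ?_⟩
          rw [Int.odd_mul]
          constructor
          · rw [← Int.not_even_iff_odd, even_iff_two_dvd]
            intro h6
            apply h4
            rw [hu d hd, pow_succ, Int.mul_dvd_mul_iff_left (by positivity)]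
            exact h6
          · rw [← Int.not_even_iff_odd, even_iff_two_dvd]
            intro h6
            apply ((ih (m / d) hlt hf').2.1).1 ?_ h5
            rw [cl_wq hf', hv d hd, show w (m / d) + 1 + 2 = (w (m / d) + 2) + 1 by ring, pow_succ,
              Int.mul_dvd_mul_iff_left (by positivity)]
            exact h6
      rw [this]
    rw [hS, hH] at hG
    obtain ⟨k, hk⟩ := (Int.modEq_iff_dvd.1 hG)
    push_cast at hk
    have hc : c (m * q) = 2 ^ (W + 1) * ((H : ℤ) - 2 * S - 4 * k) := by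
      have e1 : (8 : ℤ) * (2 ^ w m * (H : ℤ)) = 2 ^ (W + 2) * H := by rw [hwq]; ring
      rw [e1] at hk
      have e2 : (2 : ℤ) ^ (W + 4) = 2 ^ (W + 1) * 8 := by ring
      have e3 : (2 : ℤ) ^ (W + 3) = 2 ^ (W + 1) * 4 := by ring
      have e4 : (2 : ℤ) ^ (W + 2) = 2 ^ (W + 1) * 2 := by ring
      rw [e2, e3, e4] at hk
      linarith
    have hH1 : (2 : ℤ) ∣ H ↔ K m q ≠ {1} := by
      rw [← hh2, hH, pow_succ, Nat.mul_dvd_mul_iff_left (by positivity)]
      norm_cast
    have hH2 : (4 : ℤ) ∣ H ↔ K m q ≠ {1} ∧ ¬ Eps m q := by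
      rw [← hh3, hH, pow_add, Nat.mul_dvd_mul_iff_left (by positivity)]
      norm_cast
    refine ⟨?_, ?_, ?_⟩
    · rw [hc]; exact dvd_mul_right _ _
    · rw [hc, ← hH1, show W + 2 = (W + 1) + 1 by ring, pow_succ,
        Int.mul_dvd_mul_iff_left (by positivity)]
      omega
    · intro hK
      rw [hc, show W + 3 = (W + 1) + 2 by ring, pow_add, Int.mul_dvd_mul_iff_left (by positivity),
        ← hpar]
      have hK2 := hH1.2 hK
      have hE : (4 : ℤ) ∣ H ↔ ¬ Eps m q := by rw [hH2]; exact ⟨fun h => h.2, fun h => ⟨hK, h⟩⟩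
      rw [Int.odd_iff]
      by_cases hEp : Eps m q
      · have h5 : ¬ (4 : ℤ) ∣ H := by rw [hE]; exact not_not.2 hEp
        simp only [hEp, iff_true]
        omega
      · have h5 : (4 : ℤ) ∣ H := hE.2 hEp
        simp only [hEp, iff_false]
        omega

end Pool.Agent.GL
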