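import Pool.Agent.Lib_helper72.GL.DK
import Pool.Agent.Lib_helper31.GL.DH
import Pool.Agent.Lib_helper13.GL.DE
import Pool.Agent.Lib_helper51.GL.CL

/-! # Project GL, block DM: the densities for fixed `m` -/

set_option autoImplicit false

namespace Pool.Agent.GL

open Finset Filter Topology Pool.Agent.PQ

/-- the sign pattern of a set of primes -/
def sg (S : Finset ℕ) (p : ℕ) : ℤ := if p ∈ S then -1 else 1

theorem sg_pm (S : Finset ℕ) (p : ℕ) : sg S p = 1 ∨ sg S p = -1 := by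
  unfold sg
  split_ifs
  · exact Or.inr rfl
  · exact Or.inl rfl

theorem KB_congr {m : ℕ} {β β' : ℕ → ℤ} (h : ∀ p : ℕ, p.Prime → p ∣ m → β p = β' p) :
    KB m β = KB m β' := by
  classical
  unfold KB
  refine Finset.filter_congr fun d _ => ?_
  constructor
  · intro H p hp hpm
    rw [← h p hp hpm]
    exact H p hp hpm
  · intro H p hp hpm
    rw [h p hp hpm]
    exact H p hp hpm

open Classical in
/-- every sign pattern is one of a set of primes -/
theorem sg_exists {m : ℕ} (hm : m ≠ 0) (β : ℕ → ℤ) (hβ : ∀ p, β p = 1 ∨ β p = -1) :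
    ∃ S ∈ m.primeFactors.powerset, KB m (sg S) = KB m β := by
  refine ⟨m.primeFactors.filter (fun p => β p = -1), ?_, ?_⟩
  · rw [Finset.mem_powerset]
    exact Finset.filter_subset _ _
  · refine KB_congr fun p hp hpm => ?_
    unfold sg
    have hmem : p ∈ m.primeFactors := Nat.mem_primeFactors.2 ⟨hp, hpm, hm⟩
    rcases hβ p with h | h
    · rw [if_neg (by simp [h]), h]
    · rw [if_pos (by simp [hmem, h]), h]

theorem MM_dvd {m d : ℕ} (hm : MM m) (hd : d ∣ m) : MM d :=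
  ⟨hm.1.squarefree_of_dvd hd, fun p hp hpd => hm.2 p hp (hpd.trans hd)⟩

/-- the parity of `Nn` on a fibre -/
def NBodd (m : ℕ) (β : ℕ → ℤ) : Prop := ∃ u, u ∈ UB m β ∧ Odd (Nn m u).card

theorem Nn_congr {m : ℕ} (hm : MM m) {β : ℕ → ℤ} {u v : ℕ}
    (hu : ∀ p : ℕ, p.Prime → p ∣ m → jacobiSym (u : ℤ) p = β p)
    (hv : ∀ p : ℕ, p.Prime → p ∣ m → jacobiSym (v : ℤ) p = β p) : Nn m u = Nn m v := by
  unfold Nn
  refine Finset.filter_congr fun d hd => ?_
  have hdm := Nat.dvd_of_mem_divisors hd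
  have h1 : m / d ∣ m := Nat.div_dvd_of_dvd hdm
  have h2 := dkb (m / d) (MM_dvd hm h1) u β (fun p hp hpm => hu p hp (hpm.trans h1))
  have h3 := dkb (m / d) (MM_dvd hm h1) v β (fun p hp hpm => hv p hp (hpm.trans h1))
  rw [h2, h3]

open Classical in
theorem dm_sum (m : ℕ) (hm : MM m) (A : ℕ → Prop) (f : Finset ℕ → ℕ)
    (hf : ∀ S ∈ m.primeFactors.powerset,
      2 * ((UB m (sg S)).filter A).card = f S * (UB m (sg S)).card) :
    2 ^ (w m + 1) * ((U m).filter A).card = (∑ S ∈ m.primeFactors.powerset, f S) * Nat.totient m := by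
  have h0 : m ≠ 0 := hm.1.ne_zero
  have hdis : ((U m).filter A) = m.primeFactors.powerset.biUnion (fun S => (UB m (sg S)).filter A) := by
    ext u
    simp only [mem_filter, mem_biUnion, UB]
    constructor
    · rintro ⟨hu, hA⟩
      refine ⟨m.primeFactors.filter (fun p => jacobiSym (u : ℤ) p = -1), ?_, ⟨hu, ?_⟩, hA⟩
      · rw [Finset.mem_powerset]; exact Finset.filter_subset _ _
      · intro p hp hpm
        have hmem : p ∈ m.primeFactors := Nat.mem_primeFactors.2 ⟨hp, hpm, h0⟩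
        have hcop : Int.gcd (u : ℤ) p = 1 := by
          simp only [U, mem_filter] at hu
          rw [Int.gcd_natCast_natCast]
          exact Nat.Coprime.coprime_dvd_right (hpm.mul_left 8) hu.2.1
        unfold sg
        rcases jacobiSym.eq_one_or_neg_one hcop with h | h
        · rw [if_neg (by simp [h]), h]
        · rw [if_pos (by simp [hmem, h]), h]
    · rintro ⟨S, -, ⟨hu, -⟩, hA⟩
      exact ⟨hu, hA⟩
  have hpd : (m.primeFactors.powerset : Set (Finset ℕ)).PairwiseDisjoint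
      (fun S => (UB m (sg S)).filter A) := by
    intro S hS T hT hST
    rw [Function.onFun, Finset.disjoint_left]
    intro u hu hu'
    apply hST
    simp only [mem_filter, UB] at hu hu'
    have hS' := Finset.mem_powerset.1 (Finset.mem_coe.1 hS)
    have hT' := Finset.mem_powerset.1 (Finset.mem_coe.1 hT)
    have key : ∀ p ∈ m.primeFactors, (p ∈ S ↔ p ∈ T) := by
      intro p hp
      have h1 := hu.1.2 p (Nat.prime_of_mem_primeFactors hp) (Nat.dvd_of_mem_primeFactors hp)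
      have h2 := hu'.1.2 p (Nat.prime_of_mem_primeFactors hp) (Nat.dvd_of_mem_primeFactors hp)
      rw [h1] at h2
      unfold sg at h2
      by_cases hpS : p ∈ S <;> by_cases hpT : p ∈ T <;> simp [hpS, hpT] at h2 ⊢
    ext p
    constructor
    · intro h; exact (key p (hS' h)).1 h
    · intro h; exact (key p (hT' h)).2 h
  rw [hdis, Finset.card_biUnion (fun S hS T hT hST => hpd hS hT hST), Finset.mul_sum, Finset.sum_mul]
  refine Finset.sum_congr rfl fun S hS => ?_
  have h1 := hf S hS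
  have h2 := db m hm (sg S) (sg_pm S)
  calc 2 ^ (w m + 1) * ((UB m (sg S)).filter A).card
      = 2 ^ w m * (2 * ((UB m (sg S)).filter A).card) := by ring
    _ = f S * ((UB m (sg S)).card * 2 ^ w m) := by rw [h1]; ring
    _ = f S * Nat.totient m := by rw [h2]

open Classical in
theorem dm_lim' (m : ℕ) (hm : MM m) (A : ℕ → Prop) (f : Finset ℕ → ℕ) (P : ℕ → Prop) [DecidablePred P]
    (hA : ∀ u v : ℕ, u % (8 * m) = v % (8 * m) → (A u ↔ A v))
    (hP : ∀ q : ℕ, q.Prime → (m * q) % 8 = 3 → (P q ↔ A q))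
    (hf : ∀ S ∈ m.primeFactors.powerset,
      2 * ((UB m (sg S)).filter A).card = f S * (UB m (sg S)).card) :
    Tendsto (fun X : ℕ => (((prm X).filter (fun q => (m * q) % 8 = 3 ∧ P q)).card : ℝ) /
      ((prm X).filter (fun q => (m * q) % 8 = 3)).card) atTop
      (𝓝 (((∑ S ∈ m.primeFactors.powerset, f S : ℕ) : ℝ) / 2 ^ (w m + 1))) := by
  have h0 : 0 < m := Nat.pos_of_ne_zero hm.1.ne_zero
  have h1 := dg m hm A hA
  have h2 : ((((U m).filter A).card : ℝ) / Nat.totient m) =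
      ((∑ S ∈ m.primeFactors.powerset, f S : ℕ) : ℝ) / 2 ^ (w m + 1) := by
    have h3 := dm_sum m hm A f hf
    have hφ : (0 : ℝ) < Nat.totient m := by exact_mod_cast Nat.totient_pos.2 h0
    rw [div_eq_div_iff hφ.ne' (by positivity)]
    have h4 : (2 : ℝ) ^ (w m + 1) * (((U m).filter A).card : ℝ) =
        ((∑ S ∈ m.primeFactors.powerset, f S : ℕ) : ℝ) * Nat.totient m := by
      exact_mod_cast h3
    rw [← h4]; ring
  rw [← h2]
  refine h1.congr fun X => ?_
  congr 3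
  refine Finset.filter_congr fun q hq => ?_
  constructor
  · rintro ⟨h5, h6⟩
    exact ⟨h5, (hP q (by simp only [prm, mem_filter] at hq; exact hq.2) h5).2 h6⟩
  · rintro ⟨h5, h6⟩
    exact ⟨h5, (hP q (by simp only [prm, mem_filter] at hq; exact hq.2) h5).1 h6⟩

theorem dm_fam' (m q : ℕ) (hm : MM m) (hq : q.Prime) (h8 : (m * q) % 8 = 3) : Fam m q := by
  have h0 : 0 < m := Nat.pos_of_ne_zero hm.1.ne_zero
  have hm4 := cl_mod4 hm.2 h0
  have hq4 : q % 4 = 3 := by
    have h1 : (m * q) % 4 = 3 := by omega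
    rw [Nat.mul_mod, hm4] at h1
    omega
  have hcop : Nat.Coprime m q := by
    rw [Nat.coprime_comm, hq.coprime_iff_not_dvd]
    intro h
    have := hm.2 q hq h
    omega
  exact ⟨(Nat.squarefree_mul hcop).2 ⟨hm.1, hq.squarefree⟩, hq, hq4, h8, hm.2⟩

theorem mem_KB_one {m : ℕ} (hm : m ≠ 0) (β : ℕ → ℤ) : 1 ∈ KB m β := by
  classical
  unfold KB
  rw [mem_filter, Nat.mem_divisors]
  refine ⟨⟨one_dvd _, hm⟩, fun p hp _ => ⟨fun _ => ?_, fun h => ?_⟩⟩
  · simp
  · exact absurd (Nat.dvd_one.1 h) hp.one_lt.ne'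

theorem mem_KB_dvd {m d : ℕ} {β : ℕ → ℤ} (h : d ∈ KB m β) : d ∣ m := by
  classical
  unfold KB at h
  exact Nat.dvd_of_mem_divisors (mem_filter.1 h).1

theorem mem_KB_p {m d : ℕ} {β : ℕ → ℤ} (h : d ∈ KB m β) (p : ℕ) (hp : p.Prime) (hpd : p ∣ d) :
    jacobiSym ((m / d : ℕ) : ℤ) p * β p = 1 := by
  classical
  have h1 := mem_KB_dvd h
  unfold KB at h
  exact ((mem_filter.1 h).2 p hp (hpd.trans h1)).2 hpd

/-- the kernel on a fibre -/
theorem mem_UB_K {m : ℕ} (hm : MM m) {β : ℕ → ℤ} {u : ℕ} (hu : u ∈ UB m β) : K m u = KB m β := by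
  classical
  unfold UB at hu
  exact dkb m hm u β (mem_filter.1 hu).2

theorem pair_inj {d d' : ℕ} (hd : d ≠ 1) (h : ({1, d} : Finset ℕ) = {1, d'}) : d = d' := by
  have h1 : d ∈ ({1, d'} : Finset ℕ) := by rw [← h]; simp
  rw [Finset.mem_insert, Finset.mem_singleton] at h1
  rcases h1 with h1 | h1
  · exact absurd h1 hd
  · exact h1

theorem Nn_fibre {m : ℕ} (hm : MM m) {β : ℕ → ℤ} {u v : ℕ} (hu : u ∈ UB m β) (hv : v ∈ UB m β) :
    Nn m u = Nn m v := by
  classical
  unfold UB at hu hv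
  exact Nn_congr hm (mem_filter.1 hu).2 (mem_filter.1 hv).2

/-- the three cases of a class -/
def A1 (m u : ℕ) : Prop := K m u = {1}

def A2 (m u : ℕ) : Prop := K m u ≠ {1} ∧ ¬ (Odd (Nn m u).card ↔ Eps m u)

def A3 (m u : ℕ) : Prop := K m u ≠ {1} ∧ (Odd (Nn m u).card ↔ Eps m u)

open Classical in
/-- the shares on the fibres -/
noncomputable def f1 (m : ℕ) (S : Finset ℕ) : ℕ := if KB m (sg S) = {1} then 2 else 0

open Classical in
noncomputable def f2 (m : ℕ) (S : Finset ℕ) : ℕ :=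
  if KB m (sg S) = {1} then 0 else if ∃ d, d ≠ 1 ∧ KB m (sg S) = {1, d} then 1 else
    if NBodd m (sg S) then 2 else 0

open Classical in
noncomputable def f3 (m : ℕ) (S : Finset ℕ) : ℕ :=
  if KB m (sg S) = {1} then 0 else if ∃ d, d ≠ 1 ∧ KB m (sg S) = {1, d} then 1 else
    if NBodd m (sg S) then 0 else 2

theorem f_sum (m : ℕ) (S : Finset ℕ) : f1 m S + f2 m S + f3 m S = 2 := by
  unfold f1 f2 f3
  split_ifs <;> rfl

open Classical in
theorem f1_card (m : ℕ) (hm : MM m) (S : Finset ℕ) :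
    2 * ((UB m (sg S)).filter (A1 m)).card = f1 m S * (UB m (sg S)).card := by
  unfold f1
  split_ifs with h
  · rw [Finset.filter_true_of_mem]
    intro u hu
    unfold A1
    rw [mem_UB_K hm hu, h]
  · rw [Finset.filter_false_of_mem]
    · simp
    · intro u hu h'
      unfold A1 at h'
      rw [mem_UB_K hm hu] at h'
      exact h h'

open Classical in
/-- the half -/
theorem half_card (m : ℕ) (hm : MM m) (S : Finset ℕ) (d : ℕ) (hd : d ≠ 1) (hK : KB m (sg S) = {1, d})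
    (x : Prop) (Q : ℕ → Prop) (hQ : ∀ u ∈ UB m (sg S), Q u ↔ (x ↔ Eps m u)) :
    2 * ((UB m (sg S)).filter Q).card = (UB m (sg S)).card := by
  have hdK : d ∈ KB m (sg S) := by rw [hK]; simp
  have hdm := mem_KB_dvd hdK
  have h0 : 0 < m := Nat.pos_of_ne_zero hm.1.ne_zero
  have hd1 : 1 < d := by
    have := Nat.pos_of_dvd_of_pos hdm h0
    omega
  have hh := dh m hm (sg S) (sg_pm S) d hdm hd1 (fun p hp hpd => mem_KB_p hdK p hp hpd)
  have hE : ∀ u ∈ UB m (sg S), (Eps m u ↔ ¬ (Even (nq m u d) ↔ d % 8 = 1)) := by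
    intro u hu
    have hKu := mem_UB_K hm hu
    rw [hK] at hKu
    unfold Eps
    constructor
    · rintro ⟨d', hd', hK', h⟩
      rw [hKu] at hK'
      rw [pair_inj hd hK']
      exact h
    · intro h
      exact ⟨d, hd, hKu, h⟩
  have hcard := Finset.card_filter_add_card_filter_not (s := UB m (sg S)) (fun u => Even (nq m u d))
  by_cases hx : (x ↔ ¬ (d % 8 = 1))
  · have : (UB m (sg S)).filter Q =
        (UB m (sg S)).filter (fun u => Even (nq m u d)) := by
      refine Finset.filter_congr fun u hu => ?_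
      rw [hQ u hu, hE u hu, hx]
      tauto
    rw [this]
    exact hh
  · have : (UB m (sg S)).filter Q =
        (UB m (sg S)).filter (fun u => ¬ Even (nq m u d)) := by
      refine Finset.filter_congr fun u hu => ?_
      rw [hQ u hu, hE u hu]
      tauto
    rw [this]
    omega

open Classical in
theorem f2_card (m : ℕ) (hm : MM m) (S : Finset ℕ) :
    2 * ((UB m (sg S)).filter (A2 m)).card = f2 m S * (UB m (sg S)).card := by
  unfold f2
  split_ifs with h1 h2 h3
  · rw [Finset.filter_false_of_mem]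
    · simp
    · intro u hu h'
      rw [A2, mem_UB_K hm hu] at h'
      exact h'.1 h1
  · obtain ⟨d, hd, hK⟩ := h2
    have hpar : ∀ u ∈ UB m (sg S), (Odd (Nn m u).card ↔ NBodd m (sg S)) := by
      intro u hu
      constructor
      · intro h; exact ⟨u, hu, h⟩
      · rintro ⟨v, hv, h⟩
        rw [Nn_fibre hm hu hv]; exact h
    rw [one_mul]
    refine half_card m hm S d hd hK (¬ NBodd m (sg S)) (A2 m) fun u hu => ?_
    unfold A2
    rw [mem_UB_K hm hu, hpar u hu]
    constructor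
    · rintro ⟨-, h⟩; tauto
    · intro h
      exact ⟨h1, by tauto⟩
  · obtain ⟨v, hv, hodd⟩ := h3
    rw [Finset.filter_true_of_mem]
    intro u hu
    refine ⟨by rw [mem_UB_K hm hu]; exact h1, ?_⟩
    rw [Nn_fibre hm hu hv]
    intro h
    obtain ⟨d, hd, hK, -⟩ := h.1 hodd
    rw [mem_UB_K hm hu] at hK
    exact h2 ⟨d, hd, hK⟩
  · rw [Finset.filter_false_of_mem]
    · simp
    · intro u hu h'
      apply h'.2
      constructor
      · intro hodd
        exact absurd ⟨u, hu, hodd⟩ h3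
      · rintro ⟨d, hd, hK, -⟩
        rw [mem_UB_K hm hu] at hK
        exact absurd ⟨d, hd, hK⟩ h2

open Classical in
theorem f3_card (m : ℕ) (hm : MM m) (S : Finset ℕ) :
    2 * ((UB m (sg S)).filter (A3 m)).card = f3 m S * (UB m (sg S)).card := by
  have h1 := f1_card m hm S
  have h2 := f2_card m hm S
  have h3 := f_sum m S
  have h4 : ((UB m (sg S)).filter (A1 m)).card + ((UB m (sg S)).filter (A2 m)).card +
      ((UB m (sg S)).filter (A3 m)).card = (UB m (sg S)).card := by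
    rw [← Finset.card_union_of_disjoint, ← Finset.card_union_of_disjoint]
    · congr 1
      ext u
      simp only [mem_union, mem_filter, A1, A2, A3]
      tauto
    · rw [Finset.disjoint_left]
      intro u hu hu'
      simp only [mem_union, mem_filter, A1, A2, A3] at hu hu'
      tauto
    · rw [Finset.disjoint_left]
      intro u hu hu'
      simp only [mem_filter, A1, A2] at hu hu'
      tauto
  have h5 : f3 m S = 2 - f1 m S - f2 m S := by omega
  rw [h5]
  have h6 : f1 m S + f2 m S ≤ 2 := by omega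
  zify [show f1 m S ≤ 2 by omega, show f2 m S ≤ 2 - f1 m S by omega] at *
  nlinarith

theorem A_mod (m : ℕ) (hm : MM m) (u v : ℕ) (h : u % (8 * m) = v % (8 * m)) :
    (A1 m u ↔ A1 m v) ∧ (A2 m u ↔ A2 m v) ∧ (A3 m u ↔ A3 m v) := by
  obtain ⟨h1, -, h3, h4⟩ := dk m hm u v h
  unfold A1 A2 A3
  rw [h1, h3, h4]
  exact ⟨Iff.rfl, Iff.rfl, Iff.rfl⟩

theorem A_c (m q : ℕ) (hm : MM m) (hq : q.Prime) (h8 : (m * q) % 8 = 3) :
    (¬ (2 : ℤ) ^ (w m + 3) ∣ c (m * q) ↔ A1 m q) ∧
    (((2 : ℤ) ^ (w m + 3) ∣ c (m * q) ∧ ¬ (2 : ℤ) ^ (w m + 4) ∣ c (m * q)) ↔ A2 m q) ∧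
    ((2 : ℤ) ^ (w m + 4) ∣ c (m * q) ↔ A3 m q) := by
  have hf := dm_fam' m q hm hq h8
  obtain ⟨-, h2, h3⟩ := cl m q hf
  rw [cl_wq hf] at h2 h3
  have e2 : w m + 1 + 2 = w m + 3 := by ring
  have e3 : w m + 1 + 3 = w m + 4 := by ring
  rw [e2] at h2
  rw [e3] at h3
  have h4 : (2 : ℤ) ^ (w m + 4) ∣ c (m * q) → (2 : ℤ) ^ (w m + 3) ∣ c (m * q) :=
    fun h => (pow_dvd_pow 2 (by omega)).trans h
  unfold A1 A2 A3
  tauto

open Classical in
theorem dm (m : ℕ) (hm : MM m) : ∃ a b e : ℕ, a + b + e = 2 ^ (w m + 1) ∧ 2 ≤ a ∧ (1 < m → 1 ≤ b ∧ 1 ≤ e) ∧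
    Tendsto (fun X : ℕ => (((prm X).filter (fun q => (m * q) % 8 = 3 ∧
      ¬ (2 : ℤ) ^ (w m + 3) ∣ c (m * q))).card : ℝ) / ((prm X).filter (fun q => (m * q) % 8 = 3)).card) atTop
      (𝓝 ((a : ℝ) / 2 ^ (w m + 1))) ∧
    Tendsto (fun X : ℕ => (((prm X).filter (fun q => (m * q) % 8 = 3 ∧
      ((2 : ℤ) ^ (w m + 3) ∣ c (m * q) ∧ ¬ (2 : ℤ) ^ (w m + 4) ∣ c (m * q)))).card : ℝ) /
        ((prm X).filter (fun q => (m * q) % 8 = 3)).card) atTop (𝓝 ((b : ℝ) / 2 ^ (w m + 1))) ∧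
    Tendsto (fun X : ℕ => (((prm X).filter (fun q => (m * q) % 8 = 3 ∧
      (2 : ℤ) ^ (w m + 4) ∣ c (m * q))).card : ℝ) / ((prm X).filter (fun q => (m * q) % 8 = 3)).card) atTop
      (𝓝 ((e : ℝ) / 2 ^ (w m + 1))) := by
  have h0 : m ≠ 0 := hm.1.ne_zero
  refine ⟨∑ S ∈ m.primeFactors.powerset, f1 m S, ∑ S ∈ m.primeFactors.powerset, f2 m S,
    ∑ S ∈ m.primeFactors.powerset, f3 m S, ?_, ?_, ?_, ?_, ?_, ?_⟩
  · rw [← Finset.sum_add_distrib, ← Finset.sum_add_distrib, Finset.sum_congr rfl (fun S _ => f_sum m S),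
      Finset.sum_const, Finset.card_powerset, smul_eq_mul, w, pow_succ]
  · obtain ⟨β, hβ, hK⟩ := de_one m hm
    obtain ⟨S, hS, hSK⟩ := sg_exists h0 β hβ
    have h1 : f1 m S = 2 := by unfold f1; rw [if_pos (hSK.trans hK)]
    calc 2 = f1 m S := h1.symm
      _ ≤ _ := Finset.single_le_sum (f := f1 m) (fun _ _ => Nat.zero_le _) hS
  · intro hm1
    obtain ⟨β, hβ, d, hd, hK⟩ := de_two m hm hm1
    obtain ⟨S, hS, hSK⟩ := sg_exists h0 β hβ
    have hne : KB m (sg S) ≠ {1} := by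
      rw [hSK, hK]
      intro h
      have : d ∈ ({1} : Finset ℕ) := by rw [← h]; simp
      exact hd (Finset.mem_singleton.1 this)
    have hex : ∃ d, d ≠ 1 ∧ KB m (sg S) = {1, d} := ⟨d, hd, hSK.trans hK⟩
    have h2 : f2 m S = 1 := by unfold f2; rw [if_neg hne, if_pos hex]
    have h3 : f3 m S = 1 := by unfold f3; rw [if_neg hne, if_pos hex]
    constructor
    · calc 1 = f2 m S := h2.symm
        _ ≤ _ := Finset.single_le_sum (f := f2 m) (fun _ _ => Nat.zero_le _) hS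
    · calc 1 = f3 m S := h3.symm
        _ ≤ _ := Finset.single_le_sum (f := f3 m) (fun _ _ => Nat.zero_le _) hS
  · exact dm_lim' m hm (A1 m) (f1 m) _ (fun u v h => (A_mod m hm u v h).1)
      (fun q hq h8 => (A_c m q hm hq h8).1) (fun S _ => f1_card m hm S)
  · exact dm_lim' m hm (A2 m) (f2 m) _ (fun u v h => (A_mod m hm u v h).2.1)
      (fun q hq h8 => (A_c m q hm hq h8).2.1) (fun S _ => f2_card m hm S)
  · exact dm_lim' m hm (A3 m) (f3 m) _ (fun u v h => (A_mod m hm u v h).2.2)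
      (fun q hq h8 => (A_c m q hm hq h8).2.2) (fun S _ => f3_card m hm S)

end Pool.Agent.GL
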