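import Pool.Agent.Lib_helper51.GL.Defs
import Pool.Agent.Lib_helper51.PQ.R5

/-! # Project GL, block AMB: the ambiguous classes of `ℤ[√-n]`, `n ≡ 3 mod 8` squarefree -/

set_option autoImplicit false

namespace Pool.Agent.GL

open Finset Pool.Agent.PQ Pool.Agent.TM32

section
variable {n : ℕ}

theorem amb_dvd {d : ℕ} (hd : d ∣ n) : (d : ℤ) ∣ (n : ℤ) := Int.natCast_dvd_natCast.2 hd

theorem amb_cop (hn : Squarefree n) {d : ℕ} (hd : d ∣ n) : Nat.Coprime d (n / d) := by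
  obtain ⟨e, rfl⟩ := hd
  rcases Nat.eq_zero_or_pos d with rfl | h0
  · simp at hn
  · rw [Nat.mul_div_cancel_left e h0]
    exact Nat.coprime_of_squarefree_mul hn

theorem amb_copZ (hn : Squarefree n) {d : ℕ} (hd : d ∣ n) : IsCoprime (d : ℤ) ((n / d : ℕ) : ℤ) :=
  Nat.isCoprime_iff_coprime.2 (amb_cop hn hd)

theorem amb_eqn {d : ℕ} (hd : d ∣ n) : (n : ℤ) = d * ((n / d : ℕ) : ℤ) := by
  exact_mod_cast (Nat.mul_div_cancel' hd).symm

theorem amb_self (hn : Squarefree n) {d : ℕ} (hd : d ∣ n) :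
    PQ.amb n d (amb_dvd hd) * PQ.amb n d (amb_dvd hd) = Ideal.span {((d : ℤ) : Od n)} := by
  have hne := amb_eqn hd
  set e : ℤ := ((n / d : ℕ) : ℤ) with he
  apply le_antisymm
  · rw [Ideal.mul_le]
    intro z hz w hw
    obtain ⟨a, ha⟩ := mem_amb.1 hz
    obtain ⟨b, hb⟩ := mem_amb.1 hw
    rw [Ideal.mem_span_singleton]
    refine ⟨⟨d * a * b - e * z.im * w.im, a * w.im + z.im * b⟩, ?_⟩
    apply Zsqrtd.ext
    · simp only [Zsqrtd.re_mul, Zsqrtd.re_intCast, Zsqrtd.im_intCast, ha, hb]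
      linear_combination (-(z.im * w.im)) * hne
    · simp only [Zsqrtd.im_mul, Zsqrtd.re_intCast, Zsqrtd.im_intCast, ha, hb]
      ring
  · rw [Ideal.span_singleton_le_iff_mem]
    obtain ⟨b, a, hab⟩ := amb_copZ hn hd
    rw [← he] at hab
    have h1 : ((d : ℤ) : Od n) * ((d : ℤ) : Od n) ∈ PQ.amb n d (amb_dvd hd) * PQ.amb n d (amb_dvd hd) := by
      refine Ideal.mul_mem_mul ?_ ?_
      · rw [mem_amb]; simp
      · rw [mem_amb]; simp
    have h2 : (Zsqrtd.sqrtd : Od n) * (Zsqrtd.sqrtd : Od n) ∈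
        PQ.amb n d (amb_dvd hd) * PQ.amb n d (amb_dvd hd) := by
      refine Ideal.mul_mem_mul ?_ ?_
      · rw [mem_amb]; simp
      · rw [mem_amb]; simp
    have h3 : ((d : ℤ) : Od n) = ((b : ℤ) : Od n) * (((d : ℤ) : Od n) * ((d : ℤ) : Od n)) +
        (-((a : ℤ) : Od n)) * ((Zsqrtd.sqrtd : Od n) * (Zsqrtd.sqrtd : Od n)) := by
      apply Zsqrtd.ext
      · simp only [Zsqrtd.re_add, Zsqrtd.re_mul, Zsqrtd.im_mul, Zsqrtd.re_intCast,
          Zsqrtd.im_intCast, Zsqrtd.re_neg, Zsqrtd.im_neg, Zsqrtd.re_sqrtd, Zsqrtd.im_sqrtd]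
        linear_combination (-(d : ℤ)) * hab - a * hne
      · simp only [Zsqrtd.im_add, Zsqrtd.re_mul, Zsqrtd.im_mul, Zsqrtd.re_intCast,
          Zsqrtd.im_intCast, Zsqrtd.re_neg, Zsqrtd.im_neg, Zsqrtd.re_sqrtd, Zsqrtd.im_sqrtd]
        ring
    rw [h3]
    exact Ideal.add_mem _ (Ideal.mul_mem_left _ _ h1) (Ideal.mul_mem_left _ _ h2)

theorem amb_sup {a b : ℕ} (ha : a ∣ n) (hb : b ∣ n) (hc : Nat.Coprime a b) :
    IsCoprime (PQ.amb n a (amb_dvd ha)) (PQ.amb n b (amb_dvd hb)) := by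
  rw [Ideal.isCoprime_iff_sup_eq, Ideal.eq_top_iff_one]
  obtain ⟨u, v, huv⟩ := Nat.isCoprime_iff_coprime.2 hc
  have h1 : (1 : Od n) = ((u * a : ℤ) : Od n) + ((v * b : ℤ) : Od n) := by
    rw [← Int.cast_add, huv, Int.cast_one]
  rw [h1]
  refine Ideal.add_mem _ (Ideal.mem_sup_left ?_) (Ideal.mem_sup_right ?_)
  · rw [mem_amb]; simp
  · rw [mem_amb]; simp

theorem amb_mul {a b : ℕ} (hab : a * b ∣ n) (hc : Nat.Coprime a b) :
    PQ.amb n ((a * b : ℕ) : ℤ) (amb_dvd hab) =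
      PQ.amb n a (amb_dvd ((dvd_mul_right a b).trans hab)) *
        PQ.amb n b (amb_dvd ((dvd_mul_left b a).trans hab)) := by
  rw [Ideal.mul_eq_inf_of_isCoprime (amb_sup ((dvd_mul_right a b).trans hab)
    ((dvd_mul_left b a).trans hab) hc)]
  ext z
  rw [Submodule.mem_inf, mem_amb, mem_amb, mem_amb]
  push_cast
  constructor
  · intro h
    exact ⟨(dvd_mul_right _ _).trans h, (dvd_mul_left _ _).trans h⟩
  · rintro ⟨h1, h2⟩
    exact (Nat.isCoprime_iff_coprime.2 hc).mul_dvd h1 h2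

theorem amb_one (h : ((1 : ℕ) : ℤ) ∣ (n : ℤ)) : PQ.amb n ((1 : ℕ) : ℤ) h = Ideal.span {(1 : Od n)} := by
  ext z
  rw [mem_amb, Ideal.mem_span_singleton]
  simp

theorem amb_n (h : (n : ℤ) ∣ (n : ℤ)) : PQ.amb n (n : ℤ) h = Ideal.span {(Zsqrtd.sqrtd : Od n)} := by
  ext z
  rw [mem_amb, Ideal.mem_span_singleton]
  constructor
  · rintro ⟨x, hx⟩
    refine ⟨⟨z.im, -x⟩, ?_⟩
    apply Zsqrtd.ext
    · simp [hx]
    · simp
  · rintro ⟨w, rfl⟩
    simp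

theorem amb_inv [NeZero n] (hn : Squarefree n) {d : ℕ} (hd : d ∣ n) :
    TM32.Inv (PQ.amb n d (amb_dvd hd)) := by
  refine ⟨PQ.amb n d (amb_dvd hd), ((d : ℤ) : Od n), R5_cast_ne ?_, amb_self hn hd⟩
  have : d ≠ 0 := by
    rintro rfl
    exact NeZero.ne n (Nat.eq_zero_of_zero_dvd hd)
  exact_mod_cast this

end

open Classical in
/-- the ambiguous classes -/
noncomputable def amT (n : ℕ) [NeZero n] (hn : Squarefree n) (d : ℕ) : ClassGroup (Od n) :=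
  if hd : d ∣ n then mkI (PQ.amb n d (amb_dvd hd)) (amb_inv hn hd) else 1

section
variable {n : ℕ} [NeZero n] (hn : Squarefree n)
include hn

theorem amT_eq {d : ℕ} (hd : d ∣ n) :
    amT n hn d = mkI (PQ.amb n d (amb_dvd hd)) (amb_inv hn hd) := by
  unfold amT
  rw [dif_pos hd]

theorem amT_one : amT n hn 1 = 1 := by
  rw [amT_eq hn (one_dvd n), R5_mkI_congr (amb_one _) _ (inv_span 1 one_ne_zero),
    mkI_span 1 one_ne_zero]

theorem amT_n : amT n hn n = 1 := by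
  rw [amT_eq hn (dvd_refl n), R5_mkI_congr (amb_n _) _ (inv_span _ (sqrtd_ne n)),
    mkI_span _ (sqrtd_ne n)]

theorem amT_mul {a b : ℕ} (hab : a * b ∣ n) : amT n hn (a * b) = amT n hn a * amT n hn b := by
  have ha : a ∣ n := (dvd_mul_right a b).trans hab
  have hb : b ∣ n := (dvd_mul_left b a).trans hab
  have hc : Nat.Coprime a b := Nat.coprime_of_squarefree_mul (hn.squarefree_of_dvd hab)
  rw [amT_eq hn hab, amT_eq hn ha, amT_eq hn hb,
    R5_mkI_congr (amb_mul hab hc) _ ((amb_inv hn ha).mul (amb_inv hn hb)), mkI_mul]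

theorem amT_sq {d : ℕ} (hd : d ∣ n) : amT n hn d ^ 2 = 1 := by
  have hd0 : d ≠ 0 := by
    rintro rfl
    exact NeZero.ne n (Nat.eq_zero_of_zero_dvd hd)
  have h0 : ((d : ℤ) : Od n) ≠ 0 := R5_cast_ne (by exact_mod_cast hd0)
  have h1 := mkI_mul _ _ (amb_inv hn hd) (amb_inv hn hd) ((amb_inv hn hd).mul (amb_inv hn hd))
  rw [R5_mkI_congr (amb_self hn hd) _ (inv_span _ h0), mkI_span _ h0] at h1
  rw [amT_eq hn hd, pow_two, ← h1]

theorem amT_triv {d : ℕ} (hd : d ∣ n) (h : amT n hn d = 1) : d = 1 ∨ d = n := by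
  rw [amT_eq hn hd] at h
  obtain ⟨g, hg0, hg⟩ := R5_principal _ _ h
  have h2 : PQ.amb n d (amb_dvd hd) * (PQ.amb n d (amb_dvd hd)).map (starRingEnd (Od n)) =
      Ideal.span {((d : ℤ) : Od n)} := by
    rw [R5_amb_conj]
    exact amb_self hn hd
  rw [hg] at h2
  have h3 := R5_norm (by positivity) h2
  rw [od_norm] at h3
  have hdn : d ≤ n := Nat.le_of_dvd (Nat.pos_of_ne_zero (NeZero.ne n)) hd
  have hdZ : (d : ℤ) ≤ n := by exact_mod_cast hdn
  have hn0 : (0 : ℤ) < n := by exact_mod_cast Nat.pos_of_ne_zero (NeZero.ne n)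
  rcases eq_or_ne g.im 0 with h4 | h4
  · left
    have h5 : (d : ℤ) = g.re * g.re := by rw [h4] at h3; linarith
    have h6 : d = g.re.natAbs * g.re.natAbs := by
      have := congrArg Int.natAbs h5
      rwa [Int.natAbs_mul, Int.natAbs_natCast] at this
    have h7 := (hn.squarefree_of_dvd hd) g.re.natAbs ⟨1, by rw [mul_one]; exact h6⟩
    rw [Nat.isUnit_iff] at h7
    rw [h6, h7]
  · right
    have h5 : (1 : ℤ) ≤ g.im ^ 2 := by
      have := Int.one_le_abs h4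
      rw [← sq_abs]
      nlinarith
    have h6 : (n : ℤ) ≤ d := by nlinarith [sq_nonneg g.re]
    exact le_antisymm hdn (by exact_mod_cast h6)

theorem amT_norm {d : ℕ} (hd : d ∣ n) (a : ℕ) (r : ℤ) (hR : Rp n (amT n hn d) a r) :
    ∃ x y : ℤ, (a : ℤ) = d * x ^ 2 + ((n / d : ℕ) : ℤ) * y ^ 2 := by
  obtain ⟨hm, hc, hr, I, hI, hIm, hIC⟩ := hR
  rw [amT_eq hn hd] at hIC
  have h1 := mkI_mul I _ hI (amb_inv hn hd) (hI.mul (amb_inv hn hd))
  have h2 : mkI (I * PQ.amb n d (amb_dvd hd)) (hI.mul (amb_inv hn hd)) = 1 := by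
    have h3 := amT_sq hn hd
    rw [amT_eq hn hd, pow_two] at h3
    rw [h1, hIC]
    exact h3
  obtain ⟨g, hg0, hg⟩ := R5_principal _ _ h2
  have h3 : (I * PQ.amb n d (amb_dvd hd)) *
      (I * PQ.amb n d (amb_dvd hd)).map (starRingEnd (Od n)) =
      Ideal.span {(((a : ℤ) * d : ℤ) : Od n)} := by
    rw [Ideal.map_mul, R5_amb_conj, mul_mul_mul_comm, R5_conj_mul hc hr hIm, amb_self hn hd,
      Ideal.span_singleton_mul_span_singleton, Int.cast_mul]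
  rw [hg] at h3
  have h4 := R5_norm (by positivity) h3
  have h5 : g ∈ PQ.amb n d (amb_dvd hd) := by
    have : g ∈ I * PQ.amb n d (amb_dvd hd) := by rw [hg]; exact Ideal.mem_span_singleton_self g
    exact Ideal.mul_le_right this
  obtain ⟨x, hx⟩ := mem_amb.1 h5
  rw [od_norm, hx] at h4
  have hd0 : (d : ℤ) ≠ 0 := by
    have : d ≠ 0 := by
      rintro rfl
      exact NeZero.ne n (Nat.eq_zero_of_zero_dvd hd)
    exact_mod_cast this
  refine ⟨x, g.im, mul_left_cancel₀ hd0 ?_⟩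
  linear_combination -h4 + g.im ^ 2 * amb_eqn hd

theorem amT_sqrt {d : ℕ} (hd : d ∣ n) (C : ClassGroup (Od n)) (m : ℕ) (r : ℤ) (hR : Rp n C m r)
    (hC : C ^ 2 = amT n hn d) :
    ∃ X Y : ℤ, IsCoprime X Y ∧ (m : ℤ) ^ 2 = d * X ^ 2 + ((n / d : ℕ) : ℤ) * Y ^ 2 := by
  obtain ⟨hm, hc, hr, I, hI, hIm, hIC⟩ := hR
  set D := PQ.amb n d (amb_dvd hd) with hDdef
  have hD := amb_inv hn hd
  have h1 := mkI_mul (I * I) D (hI.mul hI) hD ((hI.mul hI).mul hD)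
  have h2 : mkI (I * I * D) ((hI.mul hI).mul hD) = 1 := by
    have h3 := amT_sq hn hd
    rw [amT_eq hn hd, pow_two] at h3
    rw [amT_eq hn hd] at hC
    rw [h1, mkI_mul I I hI hI (hI.mul hI), hIC, ← pow_two, hC]
    exact h3
  obtain ⟨g, hg0, hg⟩ := R5_principal _ _ h2
  have h3 : (I * I * D) * (I * I * D).map (starRingEnd (Od n)) =
      Ideal.span {(((m : ℤ) * m * d : ℤ) : Od n)} := by
    have e1 : D.map (starRingEnd (Od n)) = D := R5_amb_conj _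
    rw [Ideal.map_mul, Ideal.map_mul, e1, mul_mul_mul_comm, mul_mul_mul_comm I I, R5_conj_mul hc hr hIm,
      hDdef, amb_self hn hd, Ideal.span_singleton_mul_span_singleton,
      Ideal.span_singleton_mul_span_singleton, Int.cast_mul, Int.cast_mul]
  rw [hg] at h3
  have h4 := R5_norm (by positivity) h3
  have hgm : g ∈ I * I * D := by rw [hg]; exact Ideal.mem_span_singleton_self g
  have h5 : g ∈ D := Ideal.mul_le_right hgm
  obtain ⟨x, hx⟩ := mem_amb.1 h5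
  rw [od_norm, hx] at h4
  have hd0 : (d : ℤ) ≠ 0 := by
    have : d ≠ 0 := by
      rintro rfl
      exact NeZero.ne n (Nat.eq_zero_of_zero_dvd hd)
    exact_mod_cast this
  have h6 : (m : ℤ) ^ 2 = d * x ^ 2 + ((n / d : ℕ) : ℤ) * g.im ^ 2 := by
    apply mul_left_cancel₀ hd0
    linear_combination -h4 + g.im ^ 2 * amb_eqn hd
  refine ⟨x, g.im, ?_, h6⟩
  -- coprimality
  rw [Int.isCoprime_iff_gcd_eq_one]
  by_contra hne
  obtain ⟨l, hl, hld⟩ := Nat.exists_prime_and_dvd hne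
  have hlZ : Prime (l : ℤ) := Nat.prime_iff_prime_int.1 hl
  have hlx : (l : ℤ) ∣ x := (Int.natCast_dvd_natCast.2 hld).trans (Int.gcd_dvd_left x g.im)
  have hly : (l : ℤ) ∣ g.im := (Int.natCast_dvd_natCast.2 hld).trans (Int.gcd_dvd_right x g.im)
  have hlm : (l : ℤ) ∣ m := by
    refine hlZ.dvd_of_dvd_pow (n := 2) ?_
    rw [h6]
    exact dvd_add ((hlx.pow two_ne_zero).mul_left _) ((hly.pow two_ne_zero).mul_left _)
  have hle : ∀ z ∈ I * I * D, (l : ℤ) ∣ z.im := by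
    intro z hz
    rw [hg, Ideal.mem_span_singleton] at hz
    obtain ⟨w, rfl⟩ := hz
    rw [Zsqrtd.im_mul, hx]
    exact dvd_add ((hlx.mul_left _).mul_right _) (hly.mul_right _)
  have he : (⟨-r, 1⟩ : Od n) ∈ I := by
    rw [hIm]
    simp
  have h7 : (⟨-r, 1⟩ : Od n) * ⟨-r, 1⟩ * ((d : ℤ) : Od n) ∈ I * I * D := by
    refine Ideal.mul_mem_mul (Ideal.mul_mem_mul he he) ?_
    rw [hDdef, mem_amb]
    simp
  have h8 := hle _ h7
  have h9 : ((⟨-r, 1⟩ : Od n) * ⟨-r, 1⟩ * ((d : ℤ) : Od n)).im = -(2 * r * d) := by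
    simp only [Zsqrtd.re_mul, Zsqrtd.im_mul, Zsqrtd.re_intCast, Zsqrtd.im_intCast]
    ring
  rw [h9, dvd_neg] at h8
  have hcop : IsCoprime (l : ℤ) (2 * r * d) := by
    have e1 : IsCoprime (m : ℤ) (2 * r) := R5_cop_r hc hr
    have e2 : IsCoprime (m : ℤ) (d : ℤ) :=
      Nat.isCoprime_iff_coprime.2 (Nat.Coprime.coprime_dvd_right (hd.trans (dvd_mul_left n 2)) hc)
    exact (e1.mul_right e2).of_isCoprime_of_dvd_left hlm
  have h10 : IsUnit (l : ℤ) := hcop.isUnit_of_dvd' (dvd_refl _) h8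
  exact hlZ.not_isUnit h10

/-- from `m² = x² + n y²` -/
theorem amT_cases (h3 : n % 8 = 3) {m x y : ℤ} (hm : 0 < m) (hm2 : m % 2 = 1)
    (hmn : IsCoprime m (n : ℤ)) (hxy : IsCoprime x y) (e : m ^ 2 = x ^ 2 + (n : ℤ) * y ^ 2) :
    ∃ (d : ℕ) (s t ε : ℤ), d ∣ n ∧ (ε = 1 ∨ ε = -1) ∧
      m = d * s ^ 2 + ((n / d : ℕ) : ℤ) * t ^ 2 ∧ x = ε * (d * s ^ 2 - ((n / d : ℕ) : ℤ) * t ^ 2) ∧
      y = ε * (2 * s * t) := by
  have hn8 : (n : ℤ) % 8 = 3 := by exact_mod_cast congrArg (Nat.cast : ℕ → ℤ) h3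
  obtain ⟨hy, hx⟩ := R5b_even hn8 hm2 e
  obtain ⟨w, hw⟩ : ∃ w, y = 2 * w := ⟨y / 2, by omega⟩
  obtain ⟨u, hu⟩ : ∃ u, m - x = 2 * u := ⟨(m - x) / 2, by omega⟩
  have hn0 : (0 : ℤ) < n := by exact_mod_cast Nat.pos_of_ne_zero (NeZero.ne n)
  have hxm : |x| ≤ m := by
    apply abs_le_of_sq_le_sq _ hm.le
    rw [e]
    nlinarith [mul_nonneg hn0.le (sq_nonneg y)]
  rw [abs_le] at hxm
  obtain ⟨v, hv⟩ : ∃ v, v = m - u := ⟨_, rfl⟩
  have hu0 : 0 ≤ u := by omega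
  have hv0 : 0 ≤ v := by omega
  have huv : u * v = n * w ^ 2 := by
    have e1 : x = m - 2 * u := by linarith
    rw [hv]
    rw [e1, hw] at e
    linarith
  have hcop : ∀ l : ℤ, Prime l → l ∣ u → l ∣ v → False := by
    intro l hl h1 h2
    have h3 : l ∣ m := by
      have : m = u + v := by rw [hv]; ring
      rw [this]; exact dvd_add h1 h2
    have h4 : l ∣ x := by
      have : x = v - u := by rw [hv]; linarith
      rw [this]; exact dvd_sub h2 h1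
    have h5 : l ∣ (n : ℤ) * y ^ 2 := by
      have : (n : ℤ) * y ^ 2 = m ^ 2 - x ^ 2 := by linarith
      rw [this]
      exact dvd_sub (dvd_pow h3 two_ne_zero) (dvd_pow h4 two_ne_zero)
    rcases hl.dvd_or_dvd h5 with h6 | h6
    · exact hl.not_isUnit (hmn.isUnit_of_dvd' h3 h6)
    · exact hl.not_isUnit (hxy.isUnit_of_dvd' h4 (hl.dvd_of_dvd_pow h6))
  have hcuv : IsCoprime u v := by
    rw [Int.isCoprime_iff_gcd_eq_one]
    by_contra hne
    obtain ⟨l, hl, hld⟩ := Nat.exists_prime_and_dvd hne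
    exact hcop l (Nat.prime_iff_prime_int.1 hl)
      ((Int.natCast_dvd_natCast.2 hld).trans (Int.gcd_dvd_left u v))
      ((Int.natCast_dvd_natCast.2 hld).trans (Int.gcd_dvd_right u v))
  -- `d = gcd (n, v)`
  obtain ⟨d, hd⟩ : ∃ d : ℕ, d = Int.gcd (n : ℤ) v := ⟨_, rfl⟩
  have hdn : d ∣ n := by
    have : (d : ℤ) ∣ (n : ℤ) := by rw [hd]; exact Int.gcd_dvd_left _ _
    exact_mod_cast this
  have hdv : (d : ℤ) ∣ v := by rw [hd]; exact Int.gcd_dvd_right _ _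
  have hd0 : (0 : ℤ) < d := by
    have : d ≠ 0 := by
      rintro rfl
      exact NeZero.ne n (Nat.eq_zero_of_zero_dvd hdn)
    exact_mod_cast Nat.pos_of_ne_zero this
  set f : ℤ := ((n / d : ℕ) : ℤ) with hf
  have hnf : (n : ℤ) = d * f := amb_eqn hdn
  have hf0 : 0 < f := by
    by_contra hneg
    push Not at hneg
    nlinarith
  obtain ⟨v', hv'⟩ := hdv
  -- f is coprime to v'
  have hfv : IsCoprime f v := by
    rw [Int.isCoprime_iff_gcd_eq_one]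
    by_contra hne
    obtain ⟨l, hl, hld⟩ := Nat.exists_prime_and_dvd hne
    have h1 : (l : ℤ) ∣ f := (Int.natCast_dvd_natCast.2 hld).trans (Int.gcd_dvd_left f v)
    have h2 : (l : ℤ) ∣ v := (Int.natCast_dvd_natCast.2 hld).trans (Int.gcd_dvd_right f v)
    have h3 : (l : ℤ) ∣ (d : ℤ) := by
      rw [hd]
      exact Int.dvd_coe_gcd (by rw [hnf]; exact h1.mul_left _) h2
    have h4 := (amb_copZ hn hdn).isUnit_of_dvd' h3 (by rw [← hf]; exact h1)
    exact (Nat.prime_iff_prime_int.1 hl).not_isUnit h4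
  have hfu : f ∣ u := by
    have h1 : f ∣ u * v := by rw [huv, hnf]; exact ⟨d * w ^ 2, by ring⟩
    exact hfv.dvd_of_dvd_mul_right h1
  obtain ⟨u', hu'⟩ := hfu
  have h3' : v' * u' = w ^ 2 := by
    have : ((d : ℤ) * f) * (v' * u') = (d * f) * w ^ 2 := by rw [← hnf, ← huv, hu', hv', hnf]; ring
    exact mul_left_cancel₀ (mul_pos hd0 hf0).ne' this
  have h4 : 0 ≤ u' := by
    by_contra hneg
    push Not at hneg
    nlinarith
  have h5 : 0 ≤ v' := by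
    by_contra hneg
    push Not at hneg
    nlinarith
  obtain ⟨s, t, hs, ht, hst⟩ := R5b_sq h5 h4 h3'
    ((hcuv.symm.of_isCoprime_of_dvd_left ⟨(d : ℤ), by rw [hv']; ring⟩).of_isCoprime_of_dvd_right
      ⟨f, by rw [hu']; ring⟩)
  refine ⟨d, s, t, 1, hdn, Or.inl rfl, ?_, ?_, ?_⟩
  · rw [← hs, ← ht, ← hu', ← hv', hv]; ring
  · rw [← hs, ← ht, ← hu', ← hv', hv]; linarith
  · rw [hw, hst]; ring

theorem amT_two (h3 : n % 8 = 3) (C : ClassGroup (Od n)) (hC : C ^ 2 = 1) :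
    ∃ d : ℕ, d ∣ n ∧ C = amT n hn d := by
  obtain ⟨m, r, hR⟩ := rp_exists n C
  obtain ⟨x, y, hxy, hm2, r', hr1, hr2, hr3⟩ := rp_sq_one n C m r hR hC
  obtain ⟨hm, hc, hr, I, hI, hIm, hIC⟩ := hR
  have hmZ : (0 : ℤ) < m := by exact_mod_cast hm
  have hc' : IsCoprime (m : ℤ) (2 * (n : ℤ)) := by
    have := Nat.isCoprime_iff_coprime.2 hc
    push_cast at this
    exact this
  have hodd : (m : ℤ) % 2 = 1 := by
    have h1 : IsCoprime (m : ℤ) 2 := hc'.of_mul_right_left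
    have h2 : ¬ (2 : ℤ) ∣ m := by
      intro h3
      exact Int.prime_two.not_isUnit (h1.isUnit_of_dvd' h3 dvd_rfl)
    omega
  obtain ⟨d, s, t, ε, hdn, hε, e1, e2, e3⟩ := amT_cases hn h3 hmZ hodd hc'.of_mul_right_right hxy hm2
  refine ⟨d, hdn, ?_⟩
  have hd0 : (0 : ℤ) < d := by
    have : d ≠ 0 := by
      rintro rfl
      exact NeZero.ne n (Nat.eq_zero_of_zero_dvd hdn)
    exact_mod_cast Nat.pos_of_ne_zero this
  have hεε : ε * ε = 1 := by rcases hε with h | h <;> rw [h] <;> norm_num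
  have hne := amb_eqn hdn
  set f : ℤ := ((n / d : ℕ) : ℤ) with hf
  have hd : (m : ℤ) ∣ d * s + r * t := by
    refine R5b_root (d := d * (x + r' * y)) (ε := ε) hr1 hr2 (hr3.mul_left _) ?_
    rw [e2, e3]
    linear_combination (d * (d * s ^ 2 - f * t ^ 2 + 2 * r' * (s * t))) * hεε + t ^ 2 * hne
  have hbI : (⟨d * s, t⟩ : Od n) ∈ I := by
    rw [hIm]; exact hd
  have hbP : (⟨d * s, t⟩ : Od n) ∈ PQ.amb n d (amb_dvd hdn) := by
    rw [mem_amb]; exact dvd_mul_right _ _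
  have hcopI : IsCoprime I (PQ.amb n d (amb_dvd hdn)) := by
    rw [Ideal.isCoprime_iff_sup_eq, Ideal.eq_top_iff_one]
    have hmd : IsCoprime (m : ℤ) (d : ℤ) :=
      Nat.isCoprime_iff_coprime.2 (Nat.Coprime.coprime_dvd_right (hdn.trans (dvd_mul_left n 2)) hc)
    obtain ⟨a, b, hab⟩ := hmd
    have h1 : (1 : Od n) = ((a * m : ℤ) : Od n) + ((b * d : ℤ) : Od n) := by
      rw [← Int.cast_add, hab, Int.cast_one]
    rw [h1]
    refine Ideal.add_mem _ (Ideal.mem_sup_left ?_) (Ideal.mem_sup_right ?_)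
    · rw [hIm]; simp
    · rw [mem_amb]; simp
  have hb : (⟨d * s, t⟩ : Od n) ∈ I * PQ.amb n d (amb_dvd hdn) := by
    rw [Ideal.mul_eq_inf_of_isCoprime hcopI]
    exact ⟨hbI, hbP⟩
  have hN : (⟨d * s, t⟩ : Od n).norm = m * d := by
    rw [od_norm, e1]
    linear_combination t ^ 2 * hne
  have hKK : (I * PQ.amb n d (amb_dvd hdn)) *
      (I * PQ.amb n d (amb_dvd hdn)).map (starRingEnd (Od n)) =
      Ideal.span {(((m : ℤ) * d : ℤ) : Od n)} := by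
    rw [Ideal.map_mul, R5_amb_conj, mul_mul_mul_comm, R5_conj_mul hc hr hIm, amb_self hn hdn,
      Ideal.span_singleton_mul_span_singleton, Int.cast_mul]
  have hK := R5b_gen hKK hb hN (mul_pos hmZ hd0).ne'
  have hb0 : (⟨d * s, t⟩ : Od n) ≠ 0 := by
    intro h0
    rw [h0, Zsqrtd.norm_zero] at hN
    exact (mul_pos hmZ hd0).ne hN
  have hD := amb_inv hn hdn
  have h1 := mkI_mul I (PQ.amb n d (amb_dvd hdn)) hI hD (hI.mul hD)
  rw [R5_mkI_congr hK (hI.mul hD) (inv_span _ hb0), mkI_span _ hb0, hIC, ← amT_eq hn hdn] at h1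
  have h2 := amT_sq hn hdn
  rw [pow_two] at h2
  exact mul_right_cancel (h1.symm.trans h2.symm)

end

theorem amb (n : ℕ) [NeZero n] (hn : Squarefree n) (h3 : n % 8 = 3) : ∃ τ : ℕ → ClassGroup (Od n),
    τ 1 = 1 ∧ τ n = 1 ∧ (∀ a b : ℕ, a * b ∣ n → τ (a * b) = τ a * τ b) ∧ (∀ d : ℕ, d ∣ n → τ d ^ 2 = 1) ∧
    (∀ d : ℕ, d ∣ n → τ d = 1 → d = 1 ∨ d = n) ∧
    (∀ C, C ^ 2 = 1 → ∃ d : ℕ, d ∣ n ∧ C = τ d) ∧
    (∀ (d a : ℕ) (r : ℤ), d ∣ n → Rp n (τ d) a r → ∃ x y : ℤ, (a : ℤ) = d * x ^ 2 + ((n / d : ℕ) : ℤ) * y ^ 2) ∧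
    (∀ (d a : ℕ) (r : ℤ) (C : ClassGroup (Od n)), d ∣ n → Rp n C a r → C ^ 2 = τ d →
      ∃ X Y : ℤ, IsCoprime X Y ∧ (a : ℤ) ^ 2 = d * X ^ 2 + ((n / d : ℕ) : ℤ) * Y ^ 2) :=
  ⟨amT n hn, amT_one hn, amT_n hn, fun _ _ h => amT_mul hn h, fun _ h => amT_sq hn h,
    fun _ h h' => amT_triv hn h h', amT_two hn h3, fun _ a r h hR => amT_norm hn h a r hR,
    fun _ m r C h hR hC => amT_sqrt hn h C m r hR hC⟩

end Pool.Agent.GL
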