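import Pool.Agent.Lib_helper51.GL.AMB

/-! # Project GL, block AMB2: the number of ambiguous classes -/

set_option autoImplicit false

namespace Pool.Agent.GL

open Finset Pool.Agent.PQ Pool.Agent.TM32

theorem ambc_divisors {m : ℕ} (hm : Squarefree m) : m.divisors.card = 2 ^ w m := by
  have h0 : m ≠ 0 := hm.ne_zero
  rw [Nat.card_divisors h0, w, ← Finset.prod_const]
  refine Finset.prod_congr rfl fun p hp => ?_
  have h1 : m.factorization p = 1 := by
    have h2 : m.factorization p ≤ 1 := hm.natFactorization_le_one p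
    have h3 : m.factorization p ≠ 0 := by
      rw [← Finsupp.mem_support_iff, Nat.support_factorization]
      exact hp
    omega
  rw [h1]

section
variable {n : ℕ} [NeZero n] (hn : Squarefree n)
include hn

theorem amT_compl {d : ℕ} (hd : d ∣ n) : amT n hn (n / d) = amT n hn d := by
  have h1 : d * (n / d) ∣ n := by rw [Nat.mul_div_cancel' hd]
  have h2 := amT_mul hn h1
  rw [Nat.mul_div_cancel' hd, amT_n hn] at h2
  have h3 := amT_sq hn hd
  rw [pow_two] at h3
  exact mul_left_cancel (h2.symm.trans h3.symm)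

end

section
variable {m q : ℕ} [NeZero (m * q)] (hf : Fam m q)
include hf

theorem ambc_surj (C : ClassGroup (Od (m * q))) (hC : C ^ 2 = 1) :
    ∃ d : ℕ, d ∣ m ∧ C = amT (m * q) hf.1 d := by
  obtain ⟨d, hd, rfl⟩ := amT_two hf.1 hf.2.2.2.1 C hC
  by_cases hq : q ∣ d
  · obtain ⟨e, rfl⟩ := hq
    have hq0 : 0 < q := hf.2.1.pos
    have he : e ∣ m := by
      have : q * e ∣ q * m := by rwa [mul_comm q m]
      exact Nat.dvd_of_mul_dvd_mul_left hq0 this
    refine ⟨m / e, Nat.div_dvd_of_dvd he, ?_⟩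
    rw [← amT_compl hf.1 hd]
    congr 1
    obtain ⟨f, rfl⟩ := he
    have he0 : 0 < e := by
      rcases Nat.eq_zero_or_pos e with rfl | h
      · exact absurd hf.1.ne_zero (by simp)
      · exact h
    rw [Nat.mul_div_cancel_left f he0]
    have : e * f * q = (q * e) * f := by ring
    rw [this, Nat.mul_div_cancel_left f (Nat.mul_pos hq0 he0)]
  · refine ⟨d, ?_, rfl⟩
    exact (Nat.Coprime.dvd_of_dvd_mul_right ((Nat.Prime.coprime_iff_not_dvd hf.2.1).2 hq).symm hd)

theorem ambc_inj {d d' : ℕ} (hd : d ∣ m) (hd' : d' ∣ m)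
    (h : amT (m * q) hf.1 d = amT (m * q) hf.1 d') : d = d' := by
  have hm0 : 0 < m := by
    rcases Nat.eq_zero_or_pos m with rfl | h
    · exact absurd hf.1.ne_zero (by simp)
    · exact h
  have hd0 : 0 < d := Nat.pos_of_dvd_of_pos hd hm0
  obtain ⟨g, u, v, hg0, huv, hu, hv⟩ : ∃ g u v : ℕ, 0 < g ∧ Nat.Coprime u v ∧ d = g * u ∧ d' = g * v := by
    obtain ⟨g, u, v, h1, h2, h3, h4⟩ := Nat.exists_coprime' (m := d) (n := d') (Nat.gcd_pos_of_pos_left _ hd0)
    exact ⟨g, u, v, h1, h2, by rw [h3, mul_comm], by rw [h4, mul_comm]⟩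
  subst hu hv
  have hn := hf.1
  have hgn : g * u ∣ m * q := hd.trans (dvd_mul_right m q)
  have hgn' : g * v ∣ m * q := hd'.trans (dvd_mul_right m q)
  rw [amT_mul hn hgn, amT_mul hn hgn'] at h
  have h1 : amT (m * q) hf.1 u = amT (m * q) hf.1 v := mul_left_cancel h
  have hum : u ∣ m := (dvd_mul_left u g).trans hd
  have hvm : v ∣ m := (dvd_mul_left v g).trans hd'
  have huvm : u * v ∣ m := huv.mul_dvd_of_dvd_of_dvd hum hvm
  have h2 : amT (m * q) hf.1 (u * v) = 1 := by
    rw [amT_mul hn (huvm.trans (dvd_mul_right m q)), h1, ← pow_two]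
    exact amT_sq hn (hvm.trans (dvd_mul_right m q))
  rcases amT_triv hn (huvm.trans (dvd_mul_right m q)) h2 with h3 | h3
  · have hu1 := Nat.eq_one_of_mul_eq_one_right h3
    have hv1 := Nat.eq_one_of_mul_eq_one_left h3
    rw [hu1, hv1]
  · exfalso
    have h4 := Nat.le_of_dvd hm0 huvm
    rw [h3] at h4
    have h5 := hf.2.1.two_le
    nlinarith

theorem ambc_card : Nat.card {C : ClassGroup (Od (m * q)) // C ^ 2 = 1} = 2 ^ w m := by
  have hms : Squarefree m := hf.1.squarefree_of_dvd (dvd_mul_right m q)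
  have hm0 : m ≠ 0 := hms.ne_zero
  rw [← ambc_divisors hms]
  have e : {d : ℕ // d ∈ m.divisors} ≃ {C : ClassGroup (Od (m * q)) // C ^ 2 = 1} := by
    refine Equiv.ofBijective
      (fun d => ⟨amT (m * q) hf.1 d.1, amT_sq hf.1 ((Nat.dvd_of_mem_divisors d.2).trans (dvd_mul_right m q))⟩)
      ⟨?_, ?_⟩
    · intro d d' h
      exact Subtype.ext (ambc_inj hf (Nat.dvd_of_mem_divisors d.2) (Nat.dvd_of_mem_divisors d'.2)
        (congrArg Subtype.val h))
    · rintro ⟨C, hC⟩
      obtain ⟨d, hd, rfl⟩ := ambc_surj hf C hC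
      exact ⟨⟨d, Nat.mem_divisors.2 ⟨hd, hm0⟩⟩, rfl⟩
  rw [← Nat.card_congr e, Nat.card_eq_fintype_card, Fintype.card_coe]

end

/-- AMB2 : the count -/
theorem amb_card (m q : ℕ) [NeZero (m * q)] (hf : Fam m q) :
    Nat.card {C : ClassGroup (Od (m * q)) // C ^ 2 = 1} = 2 ^ w m := ambc_card hf

end Pool.Agent.GL
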