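import Pool.Agent.Lib_helper51.GL.Defs

/-! # Project GL: definitions for the densities -/

set_option autoImplicit false

namespace Pool.Agent.GL

open Finset Pool.Agent.PQ

/-- `m` squarefree, all its prime factors are `≡ 1 mod 4` -/
def MM (m : ℕ) : Prop := Squarefree m ∧ ∀ p : ℕ, p.Prime → p ∣ m → p % 4 = 1

open Classical in
/-- the Rédei kernel for the signs `β p = (q/p)` -/
noncomputable def KB (m : ℕ) (β : ℕ → ℤ) : Finset ℕ :=
  m.divisors.filter (fun d => ∀ p : ℕ, p.Prime → p ∣ m →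
    (¬ p ∣ d → jacobiSym (d : ℤ) p = 1) ∧ (p ∣ d → jacobiSym ((m / d : ℕ) : ℤ) p * β p = 1))

/-- the classes `u mod 8m`, prime to `8m`, with `m u ≡ 3 mod 8` -/
def U (m : ℕ) : Finset ℕ := (range (8 * m)).filter (fun u => Nat.Coprime u (8 * m) ∧ (m * u) % 8 = 3)

open Classical in
/-- the classes with given signs -/
noncomputable def UB (m : ℕ) (β : ℕ → ℤ) : Finset ℕ :=
  (U m).filter (fun u => ∀ p : ℕ, p.Prime → p ∣ m → jacobiSym (u : ℤ) p = β p)

end Pool.Agent.GL
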